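import Pool.Agent.X225.Fc.Main

/-! Fast contract-signing protocols: the largest individual cost is not `Ω(N)`. -/

namespace Pool.Agent.Results.MP_e6c168_lc.SquareRootCost

open Pool.Agent.X225.Fc

/-- For `N = q²` parties there is a fast protocol in which every party pays at most `3 q = 3 √N`;
hence for every `c > 0` there are `N ≥ 2` and a fast protocol for `N` parties in which every party
pays less than `c N`, and no constant `c > 0` is such that every fast protocol for `N ≥ 2` parties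
has a party paying at least `c N`. -/
theorem result :
    (∀ q : ℕ, 1 ≤ q → ∃ P : Fin (q * q) → Equiv.Perm (Fin (q * q)),
      IsFast P ∧ ∀ i, cost P i ≤ 3 * q) ∧
    (∀ c : ℝ, 0 < c → ∃ N : ℕ, 2 ≤ N ∧ ∃ P : Fin N → Equiv.Perm (Fin N),
      IsFast P ∧ ∀ i, (cost P i : ℝ) < c * N) ∧
    ¬ ∃ c : ℝ, 0 < c ∧ ∀ N : ℕ, 2 ≤ N → ∀ P : Fin N → Equiv.Perm (Fin N),
      IsFast P → ∃ i, c * N ≤ (cost P i : ℝ) := by
  have h1 : ∀ q : ℕ, 1 ≤ q → ∃ P : Fin (q * q) → Equiv.Perm (Fin (q * q)),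
      IsFast P ∧ ∀ i, cost P i ≤ 3 * q := by
    intro q hq
    haveI : NeZero q := ⟨by omega⟩
    exact ⟨prot q, isFast_prot q, cost_le q⟩
  have h2 : ∀ c : ℝ, 0 < c → ∃ N : ℕ, 2 ≤ N ∧ ∃ P : Fin N → Equiv.Perm (Fin N),
      IsFast P ∧ ∀ i, (cost P i : ℝ) < c * N := by
    intro c hc
    obtain ⟨k, hk⟩ := exists_nat_gt (3 / c)
    have hk' : 3 < k * c := by rwa [div_lt_iff₀ hc] at hk
    obtain ⟨P, hP, hP'⟩ := h1 (k + 2) (by omega)
    refine ⟨(k + 2) * (k + 2), by nlinarith, P, hP, fun i => ?_⟩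
    have h3 : (cost P i : ℝ) ≤ 3 * ((k : ℝ) + 2) := by exact_mod_cast hP' i
    have h4 : (0 : ℝ) < (k : ℝ) + 2 := by positivity
    push_cast
    have h5 : 3 < ((k : ℝ) + 2) * c := by nlinarith
    have h6 := mul_lt_mul_of_pos_right h5 h4
    nlinarith
  refine ⟨h1, h2, ?_⟩
  rintro ⟨c, hc, h⟩
  obtain ⟨N, hN, P, hP, hP'⟩ := h2 c hc
  obtain ⟨i, hi⟩ := h N hN P hP
  exact absurd hi (not_le.2 (hP' i))

end Pool.Agent.Results.MP_e6c168_lc.SquareRootCost
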